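import Pool.Agent.X303.PureDefs

/-!
# Motivic cohomology of open subschemes and of function fields over finite fields: definitions

For a smooth scheme `X` of pure dimension `d` over a finite field
`M X (2 d - a) (d - n) = H^a(X, ℚ(n))`.
-/

set_option autoImplicit false

namespace Pool.Agent.Zk8.BS

open Pool.Agent.W495.FM

variable {Ω V : Type} [Field Ω]

/-- Known vanishing of the groups `M Z i j = CH_j(Z, i - 2 j) ⊗ ℚ`, for all schemes `Z` of finite type
over a finite field; `dim Z` is the dimension of `Z`.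
* `above`: there are no cycles of dimension larger than `dim Z + m` on `Z × Δ^m` (Bloch);
* `top`: the groups `CH_d(Z, m)`, `d = dim Z`, vanish for `m > 0` (`ℤ(0) = ℤ`);
* `next`: the groups `CH_(d-1)(Z, m)` vanish for `m > 1` (`ℤ(1) = 𝔾_m[-1]`, Bloch);
* `neg`: there are no cycles of negative dimension on `Z`;
* `curve`: the groups `CH_j(Z, m) ⊗ ℚ` vanish for `j < 0` if `Z` is a curve or a point over a finite
  field (theorems of Quillen and Harder). -/
structure IsDimension (T : Homology Ω V) (dim : V → ℤ) : Prop where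
  above : ∀ Z i j, dim Z < j → ∀ x : T.M Z i j, x = 0
  top : ∀ Z i j, dim Z = j → 2 * j < i → ∀ x : T.M Z i j, x = 0
  next : ∀ Z i j, dim Z = j + 1 → 2 * j + 1 < i → ∀ x : T.M Z i j, x = 0
  neg : ∀ Z j, j < 0 → ∀ x : T.M Z (2 * j) j, x = 0
  curve : ∀ Z i j, dim Z ≤ 1 → j < 0 → ∀ x : T.M Z i j, x = 0

/-- The scheme `U` is smooth of pure dimension `d`: on `H^a(U, ℚ_ℓ(n)) = E U (2 d - a) (d - n)` the
Frobenius has no eigenvalue one if `a < n` (the weights of `H^a(U, ℚ_ℓ)` are at most `2 a`,
Deligne). -/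
def HasSmoothWeights (T : Homology Ω V) (U : V) (d : ℤ) : Prop :=
  ∀ a n : ℤ, a < n → ∀ e : T.E U (2 * d - a) (d - n), T.frob U _ _ e = e → e = 0

/-- The groups `H a n` are the groups `H^a(k(X), ℚ(n))` of the function field of the smooth scheme `X` of
pure dimension `d`: they are the direct limits of the groups
`H^a(U, ℚ(n)) = M U (2 d - a) (d - n)` of the dense open subschemes `U`; `Z` is the complement of
`U`. -/
def IsGeneric (T : Homology Ω V) (dim : V → ℤ) (X : V) (d : ℤ) (H : ℤ → ℤ → Type)
    [∀ a n, AddCommGroup (H a n)] : Prop :=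
  ∀ a n (x : H a n), ∃ (Z U : V) (f : T.M U (2 * d - a) (d - n) → H a n)
    (y : T.M U (2 * d - a) (d - n)), IsTriple T Z X U ∧ dim Z < d ∧ IsAdd f ∧ f y = x

/-- The groups `G a n = H^a(F, ℤ(n))` are the motivic cohomology groups of a field `F` which is contained
in a field `L` with the groups `H a n = H^a(L, ℚ(n))`: up to torsion the former embed into the latter,
if `L` is finitely generated over `F`; and there is no torsion for `a ≤ 0`, `n ≥ 1` (theorems of
Voevodsky and Rost and of Geisser and Levine). -/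
structure IsSubfield (G H : ℤ → ℤ → Type) [∀ a n, AddCommGroup (G a n)]
    [∀ a n, AddCommGroup (H a n)] : Prop where
  embed : ∀ a n, ∃ f : G a n → H a n, IsAdd f ∧ ∀ x, f x = 0 → ∃ N : ℕ, 0 < N ∧ N • x = 0
  free : ∀ a n, a ≤ 0 → 1 ≤ n → ∀ (x : G a n) (N : ℕ), 0 < N → N • x = 0 → x = 0

end Pool.Agent.Zk8.BS
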