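import Pool.Agent.Zk8.BS.Main

set_option autoImplicit false

namespace Pool.Agent.Zk8.BS

open Pool.Agent.W495.FM Pool.Agent.W495.TA Pool.Agent.X303.TBDual Pool.Agent.R937.PG

variable {Ω V : Type} [Field Ω] [CharZero Ω] [IsAlgClosed Ω] {T : Homology Ω V} {dim : V → ℤ}
  {p : ℕ} [Fact p.Prime] {ν : PadicAlgCl p ≃+* ℂ}

theorem part1 (hT : IsHomology T) (hD : IsDimension T dim) (X : V) (d : ℤ)
    (hX : Generated T (fun Y => IsGoodAbelianP p ν T Y ∨ TB T Y) X) (hP : IsPure T X)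
    (H : ℤ → ℤ → Type) [∀ a n, AddCommGroup (H a n)] (hH : IsGeneric T dim X d H)
    (G : ℤ → ℤ → Type) [∀ a n, AddCommGroup (G a n)] (hG : IsSubfield G H) :
    (∀ a : ℤ, a ≤ 0 → ∀ x : G a 2, x = 0) ∧
    (∀ x : G 1 2, ∃ N : ℕ, 0 < N ∧ N • x = 0) ∧
    (d ≤ 2 → ∀ n : ℤ, 1 ≤ n → ∀ a : ℤ, a ≤ 0 → ∀ x : G a n, x = 0) := by
  have hTB := tb_known hT hX
  refine ⟨fun a ha x => ?_, fun x => ?_, fun hd n hn a ha x => ?_⟩
  · exact sub_zero hG ha (by norm_num) (fun y => generic_zero hH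
      (fun Z U h1 h2 z => weight_two hT hD h1 hTB hP h2 (by omega) z) y) x
  · exact sub_torsion hG (fun y => generic_zero hH
      (fun Z U h1 h2 z => weight_two hT hD h1 hTB hP h2 le_rfl z) y) x
  · exact sub_zero hG ha hn (fun y => generic_zero hH
      (fun Z U h1 h2 z => surface hT hD h1 hTB hP hd h2 hn ha z) y) x

theorem part2 (hT : IsHomology T) (hD : IsDimension T dim) (X : V) (d : ℤ)
    (hX : Generated T (fun Y => IsGoodAbelianP p ν T Y ∨ TB T Y) X) (hP : IsPure T X)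
    (Z U : V) (h1 : IsTriple T Z X U) (h2 : dim Z < d) :
    (∀ a : ℤ, a ≤ 1 → ∀ x : T.M U (2 * d - a) (d - 2), x = 0) ∧
    (d ≤ 2 → ∀ n : ℤ, 1 ≤ n → ∀ a : ℤ, a ≤ 0 → ∀ x : T.M U (2 * d - a) (d - n), x = 0) := by
  have hTB := tb_known hT hX
  exact ⟨fun a ha x => weight_two hT hD h1 hTB hP h2 ha x,
    fun hd n hn a ha x => surface hT hD h1 hTB hP hd h2 hn ha x⟩

theorem part3 (hT : IsHomology T) (U : V) (d : ℤ)
    (hU : Generated T (fun Y => IsGoodAbelianP p ν T Y ∨ TB T Y) U) (hW : HasSmoothWeights T U d)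
    (n a : ℤ) (ha : a < n) (x : T.M U (2 * d - a) (d - n)) : x = 0 :=
  smooth_member hT (tb_known hT hU) hW ha x

end Pool.Agent.Zk8.BS
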