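import Pool.Agent.Zk8.BS.Defs
import Pool.Agent.X303.TBDual
import Pool.Agent.R937.PZ.Mot

set_option autoImplicit false

namespace Pool.Agent.Zk8.BS

open Pool.Agent.W495.FM Pool.Agent.W495.TA Pool.Agent.X303.TBDual

section

variable {Ω V : Type} [Field Ω] {T : Homology Ω V} {dim : V → ℤ}

theorem map_zero_of_add {A B : Type} [AddCommGroup A] [AddCommGroup B] {f : A → B} (h : IsAdd f) :
    f 0 = 0 := by
  have h1 := h 0 0
  rw [add_zero] at h1
  exact left_eq_add.1 h1

/-- vanishing of the homology of `Z` in codimension at most one -/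
theorem low (hD : IsDimension T dim) {Z : V} {i j : ℤ} (h : dim Z ≤ j + 1) (hi : 2 * j + 1 < i)
    (x : T.M Z i j) : x = 0 := by
  rcases lt_trichotomy (dim Z) j with h1 | h1 | h1
  · exact hD.above Z i j h1 x
  · exact hD.top Z i j h1 (by omega) x
  · exact hD.next Z i j (by omega) hi x

/-- vanishing of the homology of `Z` in codimension zero -/
theorem low0 (hD : IsDimension T dim) {Z : V} {i j : ℤ} (h : dim Z ≤ j) (hi : 2 * j < i)
    (x : T.M Z i j) : x = 0 := by
  rcases h.lt_or_eq with h1 | h1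
  · exact hD.above Z i j h1 x
  · exact hD.top Z i j h1 hi x

/-- the group of the complement vanishes if those of `X` and of `Z` (one degree lower) vanish -/
theorem opened_zero {Z X U : V} (h : IsTriple T Z X U) {i i' j : ℤ} (hi : i' = i + 1)
    (hX : ∀ x : T.M X i' j, x = 0) (hZ : ∀ x : T.M Z i j, x = 0) (x : T.M U i' j) : x = 0 := by
  subst hi
  obtain ⟨a, b, d, hh⟩ := h j
  obtain ⟨-, h2, -⟩ := hh i
  have h3 : (d i).f x = 0 := hZ _
  obtain ⟨y, hy⟩ := (h2.1 x).1 h3
  rw [← hy, hX y]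
  exact map_zero_of_add (b (i + 1)).add

end

variable {Ω V : Type} [Field Ω] [CharZero Ω] {T : Homology Ω V} {dim : V → ℤ}

/-- weight two: all open subschemes -/
theorem weight_two (hT : IsHomology T) (hD : IsDimension T dim) {Z X U : V} (h : IsTriple T Z X U)
    (hX : TB T X) (hP : IsPure T X) {d : ℤ} (hZ : dim Z < d) {a : ℤ} (ha : a ≤ 1)
    (x : T.M U (2 * d - a) (d - 2)) : x = 0 := by
  refine opened_zero h (i := 2 * d - a - 1) (by ring) (fun y => ?_) (fun y => ?_) x
  · exact parshin hT hX hP (by omega) y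
  · exact low hD (by omega) (by omega) y

/-- all weights: open subschemes of surfaces, curves and points -/
theorem surface (hT : IsHomology T) (hD : IsDimension T dim) {Z X U : V} (h : IsTriple T Z X U)
    (hX : TB T X) (hP : IsPure T X) {d : ℤ} (hd : d ≤ 2) (hZ : dim Z < d) {a n : ℤ} (hn : 1 ≤ n)
    (ha : a ≤ 0) (x : T.M U (2 * d - a) (d - n)) : x = 0 := by
  refine opened_zero h (i := 2 * d - a - 1) (by ring) (fun y => ?_) (fun y => ?_) x
  · exact parshin hT hX hP (by omega) y
  · rcases lt_or_ge n 3 with h3 | h3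
    · rcases hn.lt_or_eq with h4 | h4
      · exact low hD (by omega) (by omega) y
      · exact low0 hD (by omega) (by omega) y
    · exact hD.curve Z _ _ (by omega) (by omega) y

/-- all weights: smooth members -/
theorem smooth_member (hT : IsHomology T) {U : V} (hU : TB T U) {d : ℤ} (hW : HasSmoothWeights T U d)
    {a n : ℤ} (ha : a < n) (x : T.M U (2 * d - a) (d - n)) : x = 0 := by
  by_contra hx
  exact reg_ne_zero hU hx (hW a n ha _ (hT.frob_reg U _ _ x))

omit [CharZero Ω] in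
theorem generic_zero {X : V} {d : ℤ} {H : ℤ → ℤ → Type} [∀ a n, AddCommGroup (H a n)]
    (hH : IsGeneric T dim X d H) {a n : ℤ}
    (h0 : ∀ Z U : V, IsTriple T Z X U → dim Z < d → ∀ x : T.M U (2 * d - a) (d - n), x = 0)
    (x : H a n) : x = 0 := by
  obtain ⟨Z, U, f, y, h1, h2, h3, rfl⟩ := hH a n x
  rw [h0 Z U h1 h2 y]
  exact map_zero_of_add h3

theorem sub_torsion {G H : ℤ → ℤ → Type} [∀ a n, AddCommGroup (G a n)] [∀ a n, AddCommGroup (H a n)]
    (h : IsSubfield G H) {a n : ℤ} (h0 : ∀ x : H a n, x = 0) (x : G a n) :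
    ∃ N : ℕ, 0 < N ∧ N • x = 0 := by
  obtain ⟨f, -, h2⟩ := h.embed a n
  exact h2 x (h0 _)

theorem sub_zero {G H : ℤ → ℤ → Type} [∀ a n, AddCommGroup (G a n)] [∀ a n, AddCommGroup (H a n)]
    (h : IsSubfield G H) {a n : ℤ} (ha : a ≤ 0) (hn : 1 ≤ n) (h0 : ∀ x : H a n, x = 0) (x : G a n) :
    x = 0 := by
  obtain ⟨N, hN, hx⟩ := sub_torsion h h0 x
  exact h.free a n ha hn x N hN hx

variable [IsAlgClosed Ω] {p : ℕ} [Fact p.Prime] {ν : PadicAlgCl p ≃+* ℂ}

theorem tb_known (hT : IsHomology T) {X : V}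
    (hX : Generated T (fun Y => R937.PG.IsGoodAbelianP p ν T Y ∨ TB T Y) X) : TB T X := by
  refine Pool.Agent.W495.FM.tb_generated hT (fun Y hY => ?_) hX
  rcases hY with hY | hY
  · exact R937.PG.tb_goodP hT (Generated.base Y hY)
  · exact hY

end Pool.Agent.Zk8.BS
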